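import Pool.Agent.Q231.OWA.Main

/-!
# The sequential OWA rules under which free-riding is never harmful

There are such rules other than the utilitarian one. For two voters the condition is that the first
weight is at least the second one; for three voters it is that the weights are equal, or that they are
strictly decreasing and the first one is smaller than the sum of the other two; for one voter there is
no condition, and for at least four voters the weights must be equal.
-/

set_option autoImplicit false

namespace Pool.Agent.Results.MP_57045c_lc.HarmlessFreeRiding

open Pool.Agent.Q231.OWA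

/-- Weights `2, 1` for two voters, `4, 3, 2` for three voters, and equal weights otherwise. -/
noncomputable def example_rule (n : ℕ) (j : Fin n) : ℝ :=
  if n = 2 then 2 - (j : ℕ) else if n = 3 then 4 - (j : ℕ) else 1

/-- **Free-riding under sequential OWA rules.**
(1) Every election has an outcome, and only one.
(2) For every number `n` of voters and all weights `α` of an OWA rule, free-riding is never harmful in
elections with `n` voters if and only if `α` is constant, or `n = 2` and `α` is not increasing, or
`n = 3`, the weights are strictly decreasing, and the first one is smaller than the sum of the other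
two.
(3) There is a sequential OWA rule with weights that are not constant under which free-riding is never
harmful. -/
theorem result :
    (∀ (n : ℕ) (α : Fin n → ℝ) (E : Election n), (∃ w, E.Outcome α w) ∧
      ∀ w w', E.Outcome α w → E.Outcome α w' → ∀ i < E.k, w i = w' i) ∧
    (∀ (n : ℕ) (α : Fin n → ℝ), IsOWA α → (NeverHarmful n α ↔
      (∀ i j, α i = α j) ∨ (n = 2 ∧ ∀ i j, i ≤ j → α j ≤ α i) ∨
      (n = 3 ∧ (∀ i j, i < j → α j < α i) ∧ ∀ i j k, i < j → j < k → α i < α j + α k))) ∧
    (∃ α : (n : ℕ) → Fin n → ℝ, (∀ n, IsOWA (α n)) ∧ (¬ ∀ n i j, α n i = α n j) ∧
      ∀ n, NeverHarmful n (α n)) := by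
  refine ⟨fun n α E => ⟨outcome_exists E α, fun w w' h h' => outcome_unique h h'⟩,
    fun n α hα => never_iff hα, ⟨example_rule, ?_, ?_, ?_⟩⟩
  · intro n
    refine ⟨fun j => ?_, fun h => ?_⟩
    · unfold example_rule
      have hj : (j : ℕ) < n := j.2
      split_ifs with h2 h3
      · have : ((j : ℕ) : ℝ) ≤ 1 := by exact_mod_cast (show (j : ℕ) ≤ 1 by omega)
        linarith
      · have : ((j : ℕ) : ℝ) ≤ 2 := by exact_mod_cast (show (j : ℕ) ≤ 2 by omega)
        linarith
      · norm_num
    · unfold example_rule
      split_ifs <;> norm_num
  · intro h
    have := h 2 0 1
    norm_num [example_rule] at this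
  · intro n
    by_cases h2 : n = 2
    · subst h2
      refine never_two ⟨fun j => ?_, fun h => ?_⟩ ?_
      · rcases (by omega : j = 0 ∨ j = 1) with rfl | rfl <;> norm_num [example_rule]
      · norm_num [example_rule]
      · norm_num [example_rule]
    · by_cases h3 : n = 3
      · subst h3
        refine never_three ?_ ?_ ?_ <;> norm_num [example_rule]
      · exact never_const fun i j => by simp [example_rule, h2, h3]

end Pool.Agent.Results.MP_57045c_lc.HarmlessFreeRiding
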